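import Mathlib
import Pool.Agent.H84.Continuation

/-!
# Common zeros of bihomogeneous polynomials in a product of two projective spaces

`P + Q` bihomogeneous polynomials on `P^P × P^Q` have a common zero, if at most `P` of them are
pure in the first variables and at most `Q` of them are pure in the second variables.
-/

set_option autoImplicit false

open Filter Topology

namespace Pool.Agent.H22.SymLine

open MvPolynomial Pool.Agent.H84

variable {P Q : ℕ}

/-- `H` is bihomogeneous of bidegree `(j, m)`. -/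
def BiHom (H : MvPolynomial (Fin (P + 1) ⊕ Fin (Q + 1)) ℂ) (j m : ℕ) : Prop :=
  ∀ (s t : ℂ) (a : Fin (P + 1) → ℂ) (b : Fin (Q + 1) → ℂ),
    eval (Sum.elim (s • a) (t • b)) H = s ^ j * t ^ m * eval (Sum.elim a b) H

/-- The special bihomogeneous polynomial. -/
noncomputable def spec (j m : ℕ) : Fin P ⊕ Fin Q → (Fin (P + 1) → ℂ) → (Fin (Q + 1) → ℂ) → ℂ
  | Sum.inl i => fun a b => a i.succ * a 0 ^ (j - 1) * b 0 ^ m
  | Sum.inr i => fun a b => b i.succ * b 0 ^ (m - 1) * a 0 ^ j

lemma spec_smul {j m : ℕ} {l : Fin P ⊕ Fin Q} (hl : match l with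
    | Sum.inl _ => 1 ≤ j
    | Sum.inr _ => 1 ≤ m) (s t : ℂ) (a : Fin (P + 1) → ℂ) (b : Fin (Q + 1) → ℂ) :
    spec j m l (s • a) (t • b) = s ^ j * t ^ m * spec j m l a b := by
  rcases l with i | i
  · obtain ⟨k, rfl⟩ : ∃ k, j = k + 1 := ⟨j - 1, by have : 1 ≤ j := hl; omega⟩
    simp only [spec, Pi.smul_apply, smul_eq_mul, Nat.add_sub_cancel]
    ring
  · obtain ⟨k, rfl⟩ : ∃ k, m = k + 1 := ⟨m - 1, by have : 1 ≤ m := hl; omega⟩
    simp only [spec, Pi.smul_apply, smul_eq_mul, Nat.add_sub_cancel]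
    ring

lemma continuous_spec (j m : ℕ) (l : Fin P ⊕ Fin Q) :
    Continuous fun p : (Fin (P + 1) → ℂ) × (Fin (Q + 1) → ℂ) => spec j m l p.1 p.2 := by
  rcases l with i | i
  · simp only [spec]
    fun_prop
  · simp only [spec]
    fun_prop

/-- First affine coordinates. -/
noncomputable def affX (y : Fin (P + Q) → ℂ) : Fin (P + 1) → ℂ :=
  Fin.cons 1 fun i => y (finSumFinEquiv (Sum.inl i))

/-- Second affine coordinates. -/
noncomputable def affY (y : Fin (P + Q) → ℂ) : Fin (Q + 1) → ℂ :=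
  Fin.cons 1 fun i => y (finSumFinEquiv (Sum.inr i))

lemma spec_aff (j m : ℕ) (l : Fin P ⊕ Fin Q) (y : Fin (P + Q) → ℂ) :
    spec j m l (affX y) (affY y) = y (finSumFinEquiv l) := by
  rcases l with i | i
  · simp [spec, affX, affY]
  · simp [spec, affX, affY]

/-- Dehomogenization. -/
noncomputable def dehom : MvPolynomial (Fin (P + 1) ⊕ Fin (Q + 1)) ℂ →ₐ[ℂ]
    MvPolynomial (Option (Fin (P + Q))) ℂ :=
  aeval (Sum.elim (Fin.cons 1 fun i => X (some (finSumFinEquiv (Sum.inl i))))
    (Fin.cons 1 fun i => X (some (finSumFinEquiv (Sum.inr i)))))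

lemma eval_dehom (H : MvPolynomial (Fin (P + 1) ⊕ Fin (Q + 1)) ℂ)
    (y : Option (Fin (P + Q)) → ℂ) :
    eval y (dehom H) = eval (Sum.elim (affX fun k => y (some k)) (affY fun k => y (some k))) H := by
  unfold dehom
  rw [← MvPolynomial.coe_aeval_eq_eval y, ← MvPolynomial.coe_aeval_eq_eval]
  change ((aeval y).comp (aeval _)) H = aeval _ H
  congr 1
  apply MvPolynomial.algHom_ext
  intro i
  rw [AlgHom.comp_apply, aeval_X, aeval_X]
  rcases i with i | i
  · refine Fin.cases ?_ (fun i => ?_) i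
    · simp [affX]
    · simp [affX]
  · refine Fin.cases ?_ (fun i => ?_) i
    · simp [affY]
    · simp [affY]

lemma mem_span_X {σ : Type*} (p : MvPolynomial σ ℂ) (hp : eval 0 p = 0) :
    p ∈ Ideal.span (Set.range (X : σ → MvPolynomial σ ℂ)) := by
  rw [← Set.image_univ, MvPolynomial.mem_ideal_span_X_image]
  intro m hm
  by_contra h
  push Not at h
  have h0 : m = 0 := by
    ext i
    simpa using h i (Set.mem_univ i)
  rw [h0, MvPolynomial.mem_support_iff] at hm
  apply hm
  rw [← hp, MvPolynomial.eval_zero]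
  rfl

/-- Pairs of unit vectors. -/
abbrev UnitPairs (P Q : ℕ) : Type :=
  (Metric.sphere (0 : Fin (P + 1) → ℂ) 1) × (Metric.sphere (0 : Fin (Q + 1) → ℂ) 1)

/-- A square bihomogeneous system has a solution. -/
theorem exists_bizero_aux (H : Fin P ⊕ Fin Q → MvPolynomial (Fin (P + 1) ⊕ Fin (Q + 1)) ℂ)
    (j m : Fin P ⊕ Fin Q → ℕ) (hH : ∀ l, BiHom (H l) (j l) (m l))
    (hl : ∀ l, match l with
      | Sum.inl _ => 1 ≤ j l
      | Sum.inr _ => 1 ≤ m l) :
    ∃ (a : Fin (P + 1) → ℂ) (b : Fin (Q + 1) → ℂ), a ≠ 0 ∧ b ≠ 0 ∧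
      ∀ l, eval (Sum.elim a b) (H l) = 0 := by
  classical
  set E : Fin (P + Q) → MvPolynomial (Option (Fin (P + Q))) ℂ := fun k =>
    X (some k) + X none * (dehom (H (finSumFinEquiv.symm k)) - X (some k)) with hE
  have hcount := countable_bad E (fun k => by simp [hE]) (by
    refine le_trans ?_ le_sup_left
    intro p hp
    rw [mem_vanishingIdeal_singleton_iff] at hp
    refine (Ideal.span_le.mpr ?_) (mem_span_X p hp)
    rintro _ ⟨i, rfl⟩
    rcases i with _ | k
    · exact Ideal.mem_sup_right (Ideal.subset_span rfl)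
    · have h1 : (X (some k) : MvPolynomial (Option (Fin (P + Q))) ℂ) =
          E k - X none * (dehom (H (finSumFinEquiv.symm k)) - X (some k)) := by
        rw [hE]; ring
      rw [h1]
      refine Ideal.sub_mem _ (Ideal.mem_sup_left (Ideal.subset_span ⟨k, rfl⟩)) ?_
      exact Ideal.mul_mem_right _ _ (Ideal.mem_sup_right (Ideal.subset_span rfl)))
  -- the compact space of pairs
  let Z : Set (ℂ × UnitPairs P Q) := {p | ∀ l, (1 - p.1) * spec (j l) (m l) l p.2.1.1 p.2.2.1 +
    p.1 * eval (Sum.elim p.2.1.1 p.2.2.1) (H l) = 0}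
  have hZ : IsClosed Z := by
    have : Z = ⋂ l, {p : ℂ × UnitPairs P Q | (1 - p.1) * spec (j l) (m l) l p.2.1.1 p.2.2.1 +
      p.1 * eval (Sum.elim p.2.1.1 p.2.2.1) (H l) = 0} := by
      ext p; simp [Z]
    rw [this]
    refine isClosed_iInter fun l => ?_
    refine isClosed_eq ?_ continuous_const
    have h1 : Continuous fun p : ℂ × UnitPairs P Q => spec (j l) (m l) l p.2.1.1 p.2.2.1 :=
      (continuous_spec (j l) (m l) l).comp (f := fun p : ℂ × UnitPairs P Q => (p.2.1.1, p.2.2.1))
        (by fun_prop)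
    have h2 : Continuous fun p : ℂ × UnitPairs P Q => eval (Sum.elim p.2.1.1 p.2.2.1) (H l) := by
      refine (MvPolynomial.continuous_eval (H l)).comp ?_
      rw [continuous_pi_iff]
      rintro (i | i)
      · exact (continuous_apply i).comp (continuous_subtype_val.comp
          (continuous_fst.comp continuous_snd))
      · exact (continuous_apply i).comp (continuous_subtype_val.comp
          (continuous_snd.comp continuous_snd))
    fun_prop
  have hZ1 : IsClosed (Prod.fst '' Z) := isClosedMap_fst_of_compactSpace _ hZ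
  have hdense : Dense (Prod.fst '' Z) := by
    refine (hcount.dense_compl ℂ).mono ?_
    intro c hc
    simp only [Set.mem_compl_iff, Set.mem_ofPred_eq, not_not] at hc
    obtain ⟨y, hy, hyE⟩ := hc
    set y' : Fin (P + Q) → ℂ := fun k => y (some k) with hy'
    set a := affX y' with ha
    set b := affY y' with hb
    have ha0 : a ≠ 0 := fun h => by
      have := congrFun h 0
      simp [ha, affX] at this
    have hb0 : b ≠ 0 := fun h => by
      have := congrFun h 0
      simp [hb, affY] at this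
    have hna : ‖a‖ ≠ 0 := norm_ne_zero_iff.mpr ha0
    have hnb : ‖b‖ ≠ 0 := norm_ne_zero_iff.mpr hb0
    refine ⟨(c, (⟨((‖a‖⁻¹ : ℝ) : ℂ) • a, ?_⟩, ⟨((‖b‖⁻¹ : ℝ) : ℂ) • b, ?_⟩)), ?_, rfl⟩
    · rw [mem_sphere_zero_iff_norm, norm_smul, Complex.norm_real, norm_inv, norm_norm,
        inv_mul_cancel₀ hna]
    · rw [mem_sphere_zero_iff_norm, norm_smul, Complex.norm_real, norm_inv, norm_norm,
        inv_mul_cancel₀ hnb]
    · intro l
      dsimp only
      rw [spec_smul (hl l), hH l]
      have h1 := hyE (finSumFinEquiv l)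
      simp only [hE, map_add, eval_X, map_mul, map_sub, Equiv.symm_apply_apply, eval_dehom] at h1
      rw [hy] at h1
      have h2 := spec_aff (j l) (m l) l y'
      rw [← ha, ← hb] at h2
      rw [h2]
      have h3 : (1 - c) * y' (finSumFinEquiv l) + c * eval (Sum.elim a b) (H l) = 0 := by
        rw [ha, hb, hy']
        linear_combination h1
      linear_combination ((((‖a‖⁻¹ : ℝ) : ℂ)) ^ j l * (((‖b‖⁻¹ : ℝ) : ℂ)) ^ m l) * h3
  have h1 : (1 : ℂ) ∈ Prod.fst '' Z := by
    rw [← hZ1.closure_eq, hdense.closure_eq]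
    trivial
  obtain ⟨⟨c, a, b⟩, hz, rfl⟩ := h1
  refine ⟨a, b, ?_, ?_, fun l => ?_⟩
  · intro h
    have h2 := a.2
    rw [mem_sphere_zero_iff_norm, h, norm_zero] at h2
    exact zero_ne_one h2
  · intro h
    have h2 := b.2
    rw [mem_sphere_zero_iff_norm, h, norm_zero] at h2
    exact zero_ne_one h2
  · have h2 := hz l
    simpa using h2

/-- `P + Q` bihomogeneous equations, of which at most `P` are pure in the first variables and at
most `Q` are pure in the second variables, have a common zero in `P^P × P^Q`. -/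
theorem exists_bizero {ι : Type*} [Fintype ι]
    (H : ι → MvPolynomial (Fin (P + 1) ⊕ Fin (Q + 1)) ℂ)
    (j m : ι → ℕ) (hH : ∀ l, BiHom (H l) (j l) (m l)) (hpos : ∀ l, 1 ≤ j l + m l)
    (hcard : Fintype.card ι ≤ P + Q) (hx : (Finset.univ.filter fun l => m l = 0).card ≤ P)
    (hy : (Finset.univ.filter fun l => j l = 0).card ≤ Q) :
    ∃ (a : Fin (P + 1) → ℂ) (b : Fin (Q + 1) → ℂ), a ≠ 0 ∧ b ≠ 0 ∧
      ∀ l, eval (Sum.elim a b) (H l) = 0 := by
  classical
  set A : Finset ι := Finset.univ.filter fun l => m l = 0 with hA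
  set B : Finset ι := Finset.univ.filter fun l => j l = 0 with hB
  have hAB : A ⊆ Bᶜ := by
    intro l hl
    rw [hA, Finset.mem_filter] at hl
    rw [Finset.mem_compl, hB, Finset.mem_filter]
    have := hpos l
    rintro ⟨-, h⟩
    omega
  have hBc : Bᶜ.card = Fintype.card ι - B.card := Finset.card_compl B
  have hBle : B.card ≤ Fintype.card ι := Finset.card_le_univ B
  have hAle := Finset.card_le_card hAB
  obtain ⟨A', hAA', hA'B, hA'⟩ := Finset.exists_subsuperset_card_eq (n := min P Bᶜ.card) hAB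
    (le_min hx hAle) (min_le_right _ _)
  have hA'P : Fintype.card {l // l ∈ A'} ≤ Fintype.card (Fin P) := by
    rw [Fintype.card_coe, hA', Fintype.card_fin]
    exact min_le_left _ _
  have hA'Q : Fintype.card {l // l ∉ A'} ≤ Fintype.card (Fin Q) := by
    rw [Fintype.card_subtype_compl, Fintype.card_coe, hA', Fintype.card_fin]
    omega
  obtain ⟨f⟩ := Function.Embedding.nonempty_of_card_le hA'P
  obtain ⟨g⟩ := Function.Embedding.nonempty_of_card_le hA'Q
  -- the extended system
  let hf0 : {l // l ∈ A'} → MvPolynomial (Fin (P + 1) ⊕ Fin (Q + 1)) ℂ × ℕ × ℕ :=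
    fun l => (H l, j l, m l)
  let hg0 : {l // l ∉ A'} → MvPolynomial (Fin (P + 1) ⊕ Fin (Q + 1)) ℂ × ℕ × ℕ :=
    fun l => (H l, j l, m l)
  let tf : Fin P → MvPolynomial (Fin (P + 1) ⊕ Fin (Q + 1)) ℂ × ℕ × ℕ :=
    fun i => (X (Sum.inl i.succ), 1, 0)
  let tg : Fin Q → MvPolynomial (Fin (P + 1) ⊕ Fin (Q + 1)) ℂ × ℕ × ℕ :=
    fun i => (X (Sum.inr i.succ), 0, 1)
  let T : Fin P ⊕ Fin Q → MvPolynomial (Fin (P + 1) ⊕ Fin (Q + 1)) ℂ × ℕ × ℕ :=
    Sum.elim (Function.extend f hf0 tf) (Function.extend g hg0 tg)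
  have hf : ∀ l, T (Sum.inl (f l)) = (H l, j l, m l) :=
    fun l => f.injective.extend_apply hf0 tf l
  have hg : ∀ l, T (Sum.inr (g l)) = (H l, j l, m l) :=
    fun l => g.injective.extend_apply hg0 tg l
  have hf' : ∀ i, (¬ ∃ l, f l = i) → T (Sum.inl i) = (X (Sum.inl i.succ), 1, 0) :=
    fun i hi => Function.extend_apply' hf0 tf i hi
  have hg' : ∀ i, (¬ ∃ l, g l = i) → T (Sum.inr i) = (X (Sum.inr i.succ), 0, 1) :=
    fun i hi => Function.extend_apply' hg0 tg i hi
  obtain ⟨a, b, ha, hb, hab⟩ := exists_bizero_aux (fun l => (T l).1) (fun l => (T l).2.1)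
    (fun l => (T l).2.2) (by
      rintro (i | i)
      · by_cases hi : ∃ l, f l = i
        · obtain ⟨l, rfl⟩ := hi
          rw [hf]
          exact hH l
        · rw [hf' i hi]
          intro s t a b
          simp
      · by_cases hi : ∃ l, g l = i
        · obtain ⟨l, rfl⟩ := hi
          rw [hg]
          exact hH l
        · rw [hg' i hi]
          intro s t a b
          simp) (by
      rintro (i | i)
      · by_cases hi : ∃ l, f l = i
        · obtain ⟨l, rfl⟩ := hi
          simp only [hf]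
          have h1 := hA'B l.2
          rw [Finset.mem_compl, hB, Finset.mem_filter, not_and] at h1
          have := h1 (Finset.mem_univ _)
          omega
        · simp only [hf' i hi]
          exact le_rfl
      · by_cases hi : ∃ l, g l = i
        · obtain ⟨l, rfl⟩ := hi
          simp only [hg]
          have h1 : (l : ι) ∉ A := fun h => l.2 (hAA' h)
          rw [hA, Finset.mem_filter, not_and] at h1
          have := h1 (Finset.mem_univ _)
          omega
        · simp only [hg' i hi]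
          exact le_rfl)
  refine ⟨a, b, ha, hb, fun l => ?_⟩
  by_cases hl : l ∈ A'
  · have h1 := hab (Sum.inl (f ⟨l, hl⟩))
    rw [hf] at h1
    exact h1
  · have h1 := hab (Sum.inr (g ⟨l, hl⟩))
    rw [hg] at h1
    exact h1

end Pool.Agent.H22.SymLine
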