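import Mathlib
import Pool.Agent.H22.SymLine.BiZero

/-!
# Lines joining two eigenspaces in symmetric projective sets
-/

set_option autoImplicit false

namespace Pool.Agent.H22.SymLine

open MvPolynomial

variable {P Q : ℕ}

/-- The weight: degree in the first variables. -/
def wX : Fin (P + 1) ⊕ Fin (Q + 1) → ℕ := Sum.elim (fun _ => 1) fun _ => 0

lemma eval_monomial_smul (d : Fin (P + 1) ⊕ Fin (Q + 1) →₀ ℕ) (c : ℂ) (s t : ℂ)
    (a : Fin (P + 1) → ℂ) (b : Fin (Q + 1) → ℂ) :
    eval (Sum.elim (s • a) (t • b)) (monomial d c) =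
      s ^ (∑ i, d (Sum.inl i)) * t ^ (∑ i, d (Sum.inr i)) * eval (Sum.elim a b) (monomial d c) := by
  rw [eval_monomial, eval_monomial, Finsupp.prod_fintype _ _ (fun i => pow_zero _),
    Finsupp.prod_fintype _ _ (fun i => pow_zero _), Fintype.prod_sum_type, Fintype.prod_sum_type]
  simp only [Sum.elim_inl, Sum.elim_inr, Pi.smul_apply, smul_eq_mul, mul_pow,
    Finset.prod_mul_distrib, Finset.prod_pow_eq_pow_sum]
  ring

lemma BiHom.sum {κ : Type*} (S : Finset κ) (H : κ → MvPolynomial (Fin (P + 1) ⊕ Fin (Q + 1)) ℂ)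
    {j m : ℕ} (hH : ∀ k ∈ S, BiHom (H k) j m) : BiHom (∑ k ∈ S, H k) j m := by
  intro s t a b
  rw [map_sum, map_sum, Finset.mul_sum]
  exact Finset.sum_congr rfl fun k hk => hH k hk s t a b

/-- The part of degree `j` in the first variables of a form of degree `e`. -/
lemma biHom_component {G : MvPolynomial (Fin (P + 1) ⊕ Fin (Q + 1)) ℂ} {e : ℕ}
    (hG : G.IsHomogeneous e) (j : ℕ) :
    BiHom (weightedHomogeneousComponent wX j G) j (e - j) := by
  classical
  rw [weightedHomogeneousComponent_apply]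
  refine BiHom.sum _ _ fun d hd => ?_
  rw [Finset.mem_filter, mem_support_iff] at hd
  obtain ⟨hd1, hd2⟩ := hd
  have h1 : ∑ i, d (Sum.inl i) = j := by
    rw [← hd2, Finsupp.weight_apply, Finsupp.sum_fintype _ _ (by simp),
      Fintype.sum_sum_type]
    simp [wX]
  have h2 : ∑ i, d (Sum.inl i) + ∑ i, d (Sum.inr i) = e := by
    have h3 := hG hd1
    rw [← h3, Finsupp.weight_apply, Finsupp.sum_fintype _ _ (by simp),
      Fintype.sum_sum_type]
    simp
  have h3 : ∑ i, d (Sum.inr i) = e - j := by omega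
  intro s t a b
  rw [eval_monomial_smul, h1, h3]

lemma sum_component {G : MvPolynomial (Fin (P + 1) ⊕ Fin (Q + 1)) ℂ} {e : ℕ}
    (hG : G.IsHomogeneous e) :
    ∑ j ∈ Finset.range (e + 1), weightedHomogeneousComponent wX j G = G := by
  classical
  ext d
  rw [coeff_sum]
  simp only [coeff_weightedHomogeneousComponent]
  by_cases hd : coeff d G = 0
  · simp [hd]
  · have h2 : ∑ i, d (Sum.inl i) + ∑ i, d (Sum.inr i) = e := by
      have h3 := hG hd
      rw [← h3, Finsupp.weight_apply, Finsupp.sum_fintype _ _ (by simp),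
        Fintype.sum_sum_type]
      simp
    have h1 : Finsupp.weight (wX : Fin (P + 1) ⊕ Fin (Q + 1) → ℕ) d = ∑ i, d (Sum.inl i) := by
      rw [Finsupp.weight_apply, Finsupp.sum_fintype _ _ (by simp),
        Fintype.sum_sum_type]
      simp [wX]
    rw [Finset.sum_ite_eq, if_pos]
    rw [h1, Finset.mem_range]
    omega

/-- The components that are not allowed by the semi-invariance vanish. -/
lemma component_eq_zero {G : MvPolynomial (Fin (P + 1) ⊕ Fin (Q + 1)) ℂ} {e : ℕ}
    (hG : G.IsHomogeneous e) {lam mu χ : ℂ}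
    (hinv : ∀ a b, eval (Sum.elim (lam • a) (mu • b)) G = χ * eval (Sum.elim a b) G)
    {j : ℕ} (hj : j ∈ Finset.range (e + 1)) (hne : lam ^ j * mu ^ (e - j) ≠ χ)
    (a : Fin (P + 1) → ℂ) (b : Fin (Q + 1) → ℂ) :
    eval (Sum.elim a b) (weightedHomogeneousComponent wX j G) = 0 := by
  classical
  set c : ℕ → ℂ := fun k => eval (Sum.elim a b) (weightedHomogeneousComponent wX k G) with hc
  have h1 : ∀ s t a b, eval (Sum.elim (s • a) (t • b)) G = ∑ k ∈ Finset.range (e + 1),
      s ^ k * t ^ (e - k) * eval (Sum.elim a b) (weightedHomogeneousComponent wX k G) := by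
    intro s t a b
    conv_lhs => rw [← sum_component hG]
    rw [map_sum]
    exact Finset.sum_congr rfl fun k _ => biHom_component hG k s t a b
  set p : Polynomial ℂ := ∑ k ∈ Finset.range (e + 1),
    Polynomial.C ((lam ^ k * mu ^ (e - k) - χ) * c k) * Polynomial.X ^ k with hp
  have hp0 : p = 0 := by
    apply Polynomial.funext
    intro s
    rw [Polynomial.eval_zero, hp, Polynomial.eval_finsetSum]
    have h2 := hinv (s • a) b
    have h3 := h1 (lam * s) mu a b
    have h4 := h1 s 1 a b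
    rw [mul_smul] at h3
    rw [one_smul] at h4
    rw [h3, h4, Finset.mul_sum, ← sub_eq_zero, ← Finset.sum_sub_distrib] at h2
    rw [← h2]
    refine Finset.sum_congr rfl fun k _ => ?_
    simp only [Polynomial.eval_mul, Polynomial.eval_C, Polynomial.eval_pow, Polynomial.eval_X,
      one_pow, hc]
    ring
  have h2 := congrArg (fun q : Polynomial ℂ => q.coeff j) hp0
  simp only [hp, Polynomial.finsetSum_coeff, Polynomial.coeff_C_mul, Polynomial.coeff_X_pow,
    Polynomial.coeff_zero] at h2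
  rw [Finset.sum_eq_single j] at h2
  · rw [if_pos rfl, mul_one] at h2
    exact (mul_eq_zero.mp h2).resolve_left (sub_ne_zero.mpr hne)
  · intro k _ hk
    rw [if_neg (Ne.symm hk), mul_zero]
  · intro h
    exact absurd hj h

/-- Linear substitution. -/
noncomputable def subst {N : ℕ} (u : (Fin (P + 1) → ℂ) →ₗ[ℂ] (Fin (N + 1) → ℂ))
    (v : (Fin (Q + 1) → ℂ) →ₗ[ℂ] (Fin (N + 1) → ℂ)) (i : Fin (N + 1)) :
    MvPolynomial (Fin (P + 1) ⊕ Fin (Q + 1)) ℂ :=
  ∑ a, C (u (Pi.single a 1) i) * X (Sum.inl a) + ∑ b, C (v (Pi.single b 1) i) * X (Sum.inr b)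

lemma linear_apply {k N : ℕ} (u : (Fin k → ℂ) →ₗ[ℂ] (Fin N → ℂ)) (a : Fin k → ℂ) (i : Fin N) :
    u a i = ∑ l, u (Pi.single l 1) i * a l := by
  conv_lhs => rw [← Finset.univ_sum_single a]
  rw [map_sum, Finset.sum_apply]
  refine Finset.sum_congr rfl fun l _ => ?_
  have h : (Pi.single l (a l) : Fin k → ℂ) = a l • Pi.single l 1 := by
    rw [← Pi.single_smul', smul_eq_mul, mul_one]
  rw [h, map_smul, Pi.smul_apply, smul_eq_mul, mul_comm]

lemma eval_subst {N : ℕ} (u : (Fin (P + 1) → ℂ) →ₗ[ℂ] (Fin (N + 1) → ℂ))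
    (v : (Fin (Q + 1) → ℂ) →ₗ[ℂ] (Fin (N + 1) → ℂ)) (G : MvPolynomial (Fin (N + 1)) ℂ)
    (a : Fin (P + 1) → ℂ) (b : Fin (Q + 1) → ℂ) :
    eval (Sum.elim a b) (bind₁ (subst u v) G) = eval (u a + v b) G := by
  rw [← MvPolynomial.coe_aeval_eq_eval (Sum.elim a b), ← MvPolynomial.coe_aeval_eq_eval]
  change ((aeval (Sum.elim a b)).comp (bind₁ (subst u v))) G = aeval _ G
  congr 1
  apply MvPolynomial.algHom_ext
  intro i
  rw [AlgHom.comp_apply, bind₁_X_right, aeval_X, Pi.add_apply, linear_apply u, linear_apply v]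
  simp [subst]

lemma homogeneous_subst {N : ℕ} (u : (Fin (P + 1) → ℂ) →ₗ[ℂ] (Fin (N + 1) → ℂ))
    (v : (Fin (Q + 1) → ℂ) →ₗ[ℂ] (Fin (N + 1) → ℂ)) {G : MvPolynomial (Fin (N + 1)) ℂ} {e : ℕ}
    (hG : G.IsHomogeneous e) : (bind₁ (subst u v) G).IsHomogeneous e := by
  have h1 : ∀ i, (subst u v i).IsHomogeneous 1 := by
    intro i
    refine IsHomogeneous.add (IsHomogeneous.sum _ _ _ fun a _ => ?_)
      (IsHomogeneous.sum _ _ _ fun a _ => ?_)
    · simpa using (isHomogeneous_C _ _).mul (isHomogeneous_X ℂ (Sum.inl a))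
    · simpa using (isHomogeneous_C _ _).mul (isHomogeneous_X ℂ (Sum.inr a))
  have h2 := hG.aeval (subst u v) h1
  rw [one_mul] at h2
  exact h2

/-- A frame of a subspace. -/
lemma exists_frame {k N : ℕ} (E : Submodule ℂ (Fin N → ℂ)) (hE : Module.finrank ℂ E = k) :
    ∃ u : (Fin k → ℂ) →ₗ[ℂ] (Fin N → ℂ), Function.Injective u ∧ ∀ a, u a ∈ E := by
  have e : (Fin k → ℂ) ≃ₗ[ℂ] E := LinearEquiv.ofFinrankEq _ _ (by rw [Module.finrank_fin_fun, hE])
  refine ⟨E.subtype.comp e.toLinearMap, ?_, fun a => ?_⟩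
  · exact E.injective_subtype.comp e.injective
  · exact (e a).2

/-- **The line.** -/
theorem exists_line {N c : ℕ} (e : Fin c → ℕ) (he : ∀ i, 1 ≤ e i)
    (G : Fin c → MvPolynomial (Fin (N + 1)) ℂ) (hG : ∀ i, (G i).IsHomogeneous (e i))
    (A : Module.End ℂ (Fin (N + 1) → ℂ)) (χ : Fin c → ℂ)
    (hA : ∀ i (x : Fin (N + 1) → ℂ), eval (A x) (G i) = χ i * eval x (G i)) (lam mu : ℂ)
    (h : ∑ i, ((Finset.range (e i + 1)).filter fun j => lam ^ j * mu ^ (e i - j) = χ i).card + 2 ≤
      Module.finrank ℂ (A.eigenspace lam) + Module.finrank ℂ (A.eigenspace mu))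
    (hlam : (Finset.univ.filter fun i => lam ^ e i = χ i).card <
      Module.finrank ℂ (A.eigenspace lam))
    (hmu : (Finset.univ.filter fun i => mu ^ e i = χ i).card <
      Module.finrank ℂ (A.eigenspace mu)) :
    ∃ x y : Fin (N + 1) → ℂ, x ≠ 0 ∧ y ≠ 0 ∧ A x = lam • x ∧ A y = mu • y ∧
      ∀ i (s t : ℂ), eval (s • x + t • y) (G i) = 0 := by
  classical
  obtain ⟨P, hP⟩ : ∃ P, Module.finrank ℂ (A.eigenspace lam) = P + 1 :=
    ⟨Module.finrank ℂ (A.eigenspace lam) - 1, by omega⟩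
  obtain ⟨Q, hQ⟩ : ∃ Q, Module.finrank ℂ (A.eigenspace mu) = Q + 1 :=
    ⟨Module.finrank ℂ (A.eigenspace mu) - 1, by omega⟩
  rw [hP, hQ] at h
  rw [hP] at hlam
  rw [hQ] at hmu
  obtain ⟨u, hu, huE⟩ := exists_frame _ hP
  obtain ⟨v, hv, hvE⟩ := exists_frame _ hQ
  have hAu : ∀ a, A (u a) = lam • u a := fun a => Module.End.mem_eigenspace_iff.mp (huE a)
  have hAv : ∀ a, A (v a) = mu • v a := fun a => Module.End.mem_eigenspace_iff.mp (hvE a)
  set Gh : Fin c → MvPolynomial (Fin (P + 1) ⊕ Fin (Q + 1)) ℂ := fun i =>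
    bind₁ (subst u v) (G i) with hGh
  have hGhom : ∀ i, (Gh i).IsHomogeneous (e i) := fun i => homogeneous_subst u v (hG i)
  have hinv : ∀ i a b, eval (Sum.elim (lam • a) (mu • b)) (Gh i) =
      χ i * eval (Sum.elim a b) (Gh i) := by
    intro i a b
    rw [hGh]
    dsimp only
    rw [eval_subst, eval_subst, map_smul, map_smul, ← hAu, ← hAv, ← map_add, hA]
  let S : Fin c → Finset ℕ := fun i =>
    (Finset.range (e i + 1)).filter fun j => lam ^ j * mu ^ (e i - j) = χ i
  have hSmem : ∀ i j, j ∈ S i ↔ j < e i + 1 ∧ lam ^ j * mu ^ (e i - j) = χ i := by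
    intro i j
    simp [S]
  obtain ⟨a, b, ha, hb, hab⟩ := exists_bizero (ι := Σ i, {j // j ∈ S i})
    (fun l => weightedHomogeneousComponent wX l.2.1 (Gh l.1)) (fun l => l.2.1)
    (fun l => e l.1 - l.2.1) (fun l => biHom_component (hGhom l.1) l.2.1) (by
      intro l
      have h1 := ((hSmem _ _).mp l.2.2).1
      have h2 := he l.1
      omega) (by
      rw [Fintype.card_sigma]
      simp only [Fintype.card_coe]
      have h1 : ∑ i, (S i).card + 2 ≤ P + 1 + (Q + 1) := h
      omega) (by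
      refine le_trans (Finset.card_le_card_of_injOn (fun l => l.1) (t := Finset.univ.filter
        fun i => lam ^ e i = χ i) ?_ ?_) (Nat.lt_succ_iff.mp hlam)
      · rintro ⟨i, j, hj⟩ hl
        simp only [Finset.coe_filter, Finset.mem_univ, true_and, Set.mem_ofPred_eq] at hl ⊢
        have h1 := (hSmem _ _).mp hj
        have h2 : j = e i := by omega
        have h3 := h1.2
        rw [h2, Nat.sub_self, pow_zero, mul_one] at h3
        exact h3
      · rintro ⟨i, j, hj⟩ hl ⟨i', j', hj'⟩ hl' hii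
        simp only [Finset.coe_filter, Finset.mem_univ, true_and, Set.mem_ofPred_eq] at hl hl' hii
        subst hii
        have h1 := (hSmem _ _).mp hj
        have h2 := (hSmem _ _).mp hj'
        have h3 : j = j' := by omega
        subst h3
        rfl) (by
      refine le_trans (Finset.card_le_card_of_injOn (fun l => l.1) (t := Finset.univ.filter
        fun i => mu ^ e i = χ i) ?_ ?_) (Nat.lt_succ_iff.mp hmu)
      · rintro ⟨i, j, hj⟩ hl
        simp only [Finset.coe_filter, Finset.mem_univ, true_and, Set.mem_ofPred_eq] at hl ⊢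
        have h1 := (hSmem _ _).mp hj
        have h3 := h1.2
        rw [hl, Nat.sub_zero, pow_zero, one_mul] at h3
        exact h3
      · rintro ⟨i, j, hj⟩ hl ⟨i', j', hj'⟩ hl' hii
        simp only [Finset.coe_filter, Finset.mem_univ, true_and, Set.mem_ofPred_eq] at hl hl' hii
        subst hii
        have h3 : j = j' := by omega
        subst h3
        rfl)
  refine ⟨u a, v b, fun h => ha (hu (h.trans (map_zero u).symm)),
    fun h => hb (hv (h.trans (map_zero v).symm)), hAu a, hAv b, fun i s t => ?_⟩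
  have h1 : eval (s • u a + t • v b) (G i) = eval (Sum.elim (s • a) (t • b)) (Gh i) := by
    rw [hGh]
    dsimp only
    rw [eval_subst, map_smul, map_smul]
  rw [h1, ← sum_component (hGhom i), map_sum]
  refine Finset.sum_eq_zero fun j hj => ?_
  rw [biHom_component (hGhom i) j s t a b]
  by_cases hne : lam ^ j * mu ^ (e i - j) = χ i
  · have h2 := hab ⟨i, j, (hSmem _ _).mpr ⟨Finset.mem_range.mp hj, hne⟩⟩
    dsimp only at h2
    rw [h2, mul_zero]
  · rw [component_eq_zero (hGhom i) (hinv i) hj hne, mul_zero]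

end Pool.Agent.H22.SymLine
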